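import Pool.Agent.H77.GR.Stm
import Pool.Agent.H77.TF.Pri

/-!
# Project GR: the logarithmic fields of the reduction lift in all degrees
-/

set_option autoImplicit false
set_option linter.unusedSectionVars false

open MvPolynomial Module Pool.Agent.H77.TF Pool.Agent.H77.GR

namespace Pool.Agent.H18.GR

section general

variable {R : Type} [CommRing R]

theorem evlR_sub (a : Fin 3 → R) (v w : Fin 3 → MvPolynomial (Fin 3) R) :
    evlR a (v - w) = evlR a v - evlR a w := by
  simp [evlR, mul_sub, Finset.sum_sub_distrib]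

theorem evlR_add (a : Fin 3 → R) (v w : Fin 3 → MvPolynomial (Fin 3) R) :
    evlR a (v + w) = evlR a v + evlR a w := by
  simp [evlR, mul_add, Finset.sum_add_distrib]

theorem evlR_smul (a : Fin 3 → R) (f : MvPolynomial (Fin 3) R)
    (v : Fin 3 → MvPolynomial (Fin 3) R) : evlR a (f • v) = f * evlR a v := by
  simp only [evlR, Finset.mul_sum, Pi.smul_apply, smul_eq_mul]
  exact Finset.sum_congr rfl fun j _ => by ring

theorem linR_hom (a : Fin 3 → R) : (linR a).IsHomogeneous 1 := by
  refine IsHomogeneous.sum _ _ _ fun i _ => ?_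
  simpa using (isHomogeneous_C (Fin 3) (a i)).mul (isHomogeneous_X R i)

theorem evlR_hom (a : Fin 3 → R) {v : Fin 3 → MvPolynomial (Fin 3) R} {m : ℕ}
    (hv : ∀ j, (v j).IsHomogeneous m) : (evlR a v).IsHomogeneous m := by
  refine IsHomogeneous.sum _ _ _ fun i _ => ?_
  simpa using (isHomogeneous_C (Fin 3) (a i)).mul (hv i)

theorem hc_evlR (a : Fin 3 → R) (v : Fin 3 → MvPolynomial (Fin 3) R) (m : ℕ) :
    homogeneousComponent m (evlR a v) = evlR a fun j => homogeneousComponent m (v j) := by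
  simp only [evlR, map_sum, homogeneousComponent_C_mul]

theorem dvd_hc {a : Fin 3 → R} {p : MvPolynomial (Fin 3) R} (h : linR a ∣ p) (m : ℕ) :
    linR a ∣ homogeneousComponent m p := by
  obtain ⟨q, rfl⟩ := h
  conv_rhs => rw [← sum_homogeneousComponent q]
  rw [Finset.mul_sum, map_sum]
  refine Finset.dvd_sum fun i _ => ?_
  have h1 : (linR a * homogeneousComponent i q).IsHomogeneous (1 + i) :=
    (linR_hom a).mul (homogeneousComponent_isHomogeneous i q)
  rw [homogeneousComponent_of_mem h1]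
  split_ifs
  · exact dvd_mul_right _ _
  · exact dvd_zero _

variable {k : Type} [CommRing k] (φ : R →+* k)

theorem map_linR (a : Fin 3 → R) : MvPolynomial.map φ (linR a) = linR fun j => φ (a j) := by
  simp [linR]

theorem map_evlR (a : Fin 3 → R) (v : Fin 3 → MvPolynomial (Fin 3) R) :
    MvPolynomial.map φ (evlR a v) = evlR (fun j => φ (a j)) (mapV φ v) := by
  simp [evlR, mapV]

theorem map_hc (p : MvPolynomial (Fin 3) R) (m : ℕ) :
    MvPolynomial.map φ (homogeneousComponent m p) =
      homogeneousComponent m (MvPolynomial.map φ p) := by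
  ext d
  rw [coeff_map, coeff_homogeneousComponent, coeff_homogeneousComponent, coeff_map]
  split_ifs <;> simp

theorem exists_lift (hφ : Function.Surjective φ) {p : MvPolynomial (Fin 3) k} {m : ℕ}
    (hp : p.IsHomogeneous m) :
    ∃ P : MvPolynomial (Fin 3) R, P.IsHomogeneous m ∧ MvPolynomial.map φ P = p := by
  obtain ⟨P, hP⟩ := MvPolynomial.map_surjective φ hφ p
  refine ⟨homogeneousComponent m P, homogeneousComponent_isHomogeneous m P, ?_⟩
  rw [map_hc, hP, homogeneousComponent_eq_self hp]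

end general

variable {R : Type} [CommRing R] [IsDomain R] [IsDiscreteValuationRing R] {π : R}

theorem dvd_iff (hπ : Irreducible π) (p : MvPolynomial (Fin 3) R) :
    C π ∣ p ↔ MvPolynomial.map (IsLocalRing.residue R) p = 0 := by
  rw [C_dvd_iff_dvd_coeff]
  constructor
  · intro h
    ext d
    rw [coeff_map, coeff_zero, IsLocalRing.residue_eq_zero_iff, hπ.maximalIdeal_eq,
      Ideal.mem_span_singleton]
    exact h d
  · intro h d
    have h1 := congrArg (coeff d) h
    rw [coeff_map, coeff_zero, IsLocalRing.residue_eq_zero_iff, hπ.maximalIdeal_eq,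
      Ideal.mem_span_singleton] at h1
    exact h1

theorem exists_div (hπ : Irreducible π) {p : MvPolynomial (Fin 3) R} {m : ℕ}
    (hp : p.IsHomogeneous m) (h : MvPolynomial.map (IsLocalRing.residue R) p = 0) :
    ∃ q : MvPolynomial (Fin 3) R, q.IsHomogeneous m ∧ p = C π * q := by
  obtain ⟨q, hq⟩ := (dvd_iff hπ p).2 h
  refine ⟨homogeneousComponent m q, homogeneousComponent_isHomogeneous m q, ?_⟩
  rw [← homogeneousComponent_C_mul, ← hq, homogeneousComponent_eq_self hp]

variable {ν : Type} {A : ν → Fin 3 → R}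

theorem cancel (hπ : Irreducible π) (hA : ∀ i, mapA (IsLocalRing.residue R) A i ≠ 0) {i : ν}
    {p : MvPolynomial (Fin 3) R} (h : linR (A i) ∣ C π * p) : linR (A i) ∣ p := by
  obtain ⟨q, hq⟩ := h
  have hpr : Prime (C π : MvPolynomial (Fin 3) R) := (prime_C_iff (Fin 3)).2 hπ.prime
  have h1 : ¬ (C π : MvPolynomial (Fin 3) R) ∣ linR (A i) := by
    intro h2
    have h3 := (dvd_iff hπ _).1 h2
    rw [map_linR] at h3
    have h4 := (pri (IsLocalRing.ResidueField R) 3 _ (hA i)).1.ne_zero
    exact h4 h3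
  have h2 : (C π : MvPolynomial (Fin 3) R) ∣ linR (A i) * q := ⟨p, hq.symm⟩
  obtain ⟨q', hq'⟩ := (hpr.dvd_mul.1 h2).resolve_left h1
  refine ⟨q', mul_left_cancel₀ hpr.ne_zero ?_⟩
  rw [hq, hq']
  ring

/-- (a) -/
theorem stepA (hπ : Irreducible π) (hA : ∀ i, mapA (IsLocalRing.residue R) A i ≠ 0) {m : ℕ}
    (hL : Lifts A m) {y : ν → MvPolynomial (Fin 3) R} {x : Fin 3 → MvPolynomial (Fin 3) R}
    (hx : ∀ l, (x l).IsHomogeneous m) (h : ∀ i, linR (A i) ∣ C π * y i - evlR (A i) x) :
    ∃ x' : Fin 3 → MvPolynomial (Fin 3) R, (∀ l, (x' l).IsHomogeneous m) ∧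
      ∀ i, linR (A i) ∣ y i - evlR (A i) x' := by
  have hmem : mapV (IsLocalRing.residue R) x ∈ LRm (mapA (IsLocalRing.residue R) A) m := by
    refine ⟨fun i => ?_, fun j => (hx j).map _⟩
    have h1 := map_dvd (MvPolynomial.map (IsLocalRing.residue R)) (h i)
    rw [map_sub, map_mul, map_C, (IsLocalRing.residue_eq_zero_iff π).2 (by
      rw [hπ.maximalIdeal_eq]; exact Ideal.mem_span_singleton_self π), map_linR, map_evlR, map_zero,
      zero_mul, zero_sub, dvd_neg] at h1
    exact h1
  obtain ⟨V, hV, hVx⟩ := hL _ hmem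
  have h2 : ∀ l, ∃ q : MvPolynomial (Fin 3) R, q.IsHomogeneous m ∧ x l - V l = C π * q := by
    intro l
    refine exists_div hπ ((hx l).sub (hV.2 l)) ?_
    have := congrFun hVx l
    rw [map_sub]
    exact sub_eq_zero.2 this.symm
  choose x' hx' hxV using h2
  refine ⟨x', hx', fun i => cancel hπ hA ?_⟩
  have h3 : x = V + (C π : MvPolynomial (Fin 3) R) • x' := by
    funext l
    rw [Pi.add_apply, Pi.smul_apply, smul_eq_mul, ← hxV l]
    ring
  have h4 := h i
  rw [h3, evlR_add, evlR_smul] at h4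
  have h5 := dvd_add h4 (hV.1 i)
  have h6 : C π * y i - (evlR (A i) V + C π * evlR (A i) x') + evlR (A i) V =
      C π * (y i - evlR (A i) x') := by ring
  rwa [h6] at h5

theorem stepA_pow (hπ : Irreducible π) (hA : ∀ i, mapA (IsLocalRing.residue R) A i ≠ 0) {m : ℕ}
    (hL : Lifts A m) (j : ℕ) : ∀ {y : ν → MvPolynomial (Fin 3) R}
    {x : Fin 3 → MvPolynomial (Fin 3) R}, (∀ l, (x l).IsHomogeneous m) →
    (∀ i, linR (A i) ∣ C (π ^ j) * y i - evlR (A i) x) →
    ∃ x' : Fin 3 → MvPolynomial (Fin 3) R, (∀ l, (x' l).IsHomogeneous m) ∧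
      ∀ i, linR (A i) ∣ y i - evlR (A i) x' := by
  induction j with
  | zero =>
    intro y x hx h
    exact ⟨x, hx, fun i => by simpa using h i⟩
  | succ j ih =>
    intro y x hx h
    obtain ⟨x', hx', h'⟩ := stepA hπ hA hL (y := fun i => C (π ^ j) * y i) hx fun i => by
      have := h i
      rw [pow_succ, mul_comm (π ^ j) π, C_mul, mul_assoc] at this
      exact this
    exact ih hx' h'

/-- (b) -/
theorem stepB (hDEP : S_DEP) (hπ : Irreducible π)
    (hS : Simple (mapA (IsLocalRing.residue R) A)) {e : Fin 3 → ℕ}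
    (he : HasExp (mapA (IsLocalRing.residue R) A) e) {N : ℕ} (hL : ∀ m, N ≤ m → Lifts A m)
    {m j : ℕ} {y : ν → MvPolynomial (Fin 3) R} (hy : ∀ i, (y i).IsHomogeneous m)
    {x : Fin 3 → MvPolynomial (Fin 3) R} (hx : ∀ l, (x l).IsHomogeneous m)
    (h : ∀ i, linR (A i) ∣ C (π ^ j) * y i - evlR (A i) x) :
    ∃ (x₁ : Fin 3 → MvPolynomial (Fin 3) R) (y₁ : ν → MvPolynomial (Fin 3) R),
      (∀ l, (x₁ l).IsHomogeneous m) ∧ (∀ i, (y₁ i).IsHomogeneous m) ∧
      ∀ i, linR (A i) ∣ y i - evlR (A i) x₁ - C π * y₁ i := by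
  have hA := hS.1
  have hres : Function.Surjective (IsLocalRing.residue R) := IsLocalRing.residue_surjective
  -- the multiples by powers of the variables
  have h1 : ∀ t : Fin 3, ∃ φ : Fin 3 → MvPolynomial (Fin 3) (IsLocalRing.ResidueField R),
      ∀ i, lin (mapA (IsLocalRing.residue R) A i) ∣
        X t ^ N * MvPolynomial.map (IsLocalRing.residue R) (y i) -
          evl (mapA (IsLocalRing.residue R) A i) φ := by
    intro t
    obtain ⟨x', hx', h'⟩ := stepA_pow hπ hA (hL (N + m) (by omega)) j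
      (y := fun i => X t ^ N * y i) (x := (X t ^ N : MvPolynomial (Fin 3) R) • x)
      (fun l => by
        rw [Pi.smul_apply, smul_eq_mul]
        simpa using ((isHomogeneous_X R t).pow N).mul (hx l)) fun i => by
        rw [evlR_smul]
        have : C (π ^ j) * (X t ^ N * y i) - X t ^ N * evlR (A i) x =
            X t ^ N * (C (π ^ j) * y i - evlR (A i) x) := by ring
        rw [this]
        exact dvd_mul_of_dvd_right (h i) _
    refine ⟨mapV (IsLocalRing.residue R) x', fun i => ?_⟩
    have h2 := map_dvd (MvPolynomial.map (IsLocalRing.residue R)) (h' i)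
    rw [map_sub, map_mul, map_pow, map_X, map_linR, map_evlR] at h2
    exact h2
  obtain ⟨φ, hφ⟩ := hDEP _ ν _ e N (fun i => MvPolynomial.map (IsLocalRing.residue R) (y i)) hS he h1
  -- the lift of the homogeneous component
  have h2 : ∀ l, ∃ P : MvPolynomial (Fin 3) R, P.IsHomogeneous m ∧
      MvPolynomial.map (IsLocalRing.residue R) P = homogeneousComponent m (φ l) := fun l =>
    exists_lift _ hres (homogeneousComponent_isHomogeneous m (φ l))
  choose x₁ hx₁ hx₁' using h2
  have h3 : ∀ i, ∃ y₁ : MvPolynomial (Fin 3) R, y₁.IsHomogeneous m ∧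
      linR (A i) ∣ y i - evlR (A i) x₁ - C π * y₁ := by
    intro i
    have h4 : linR (mapA (IsLocalRing.residue R) A i) ∣
        MvPolynomial.map (IsLocalRing.residue R) (y i - evlR (A i) x₁) := by
      have h5 := dvd_hc (a := mapA (IsLocalRing.residue R) A i) (hφ i) m
      have h6 : homogeneousComponent m (MvPolynomial.map (IsLocalRing.residue R) (y i) -
          evl (mapA (IsLocalRing.residue R) A i) φ) =
          MvPolynomial.map (IsLocalRing.residue R) (y i - evlR (A i) x₁) := by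
        rw [map_sub, map_sub, homogeneousComponent_eq_self ((hy i).map _), map_evlR]
        congr 1
        have h7 : mapV (IsLocalRing.residue R) x₁ = fun l => homogeneousComponent m (φ l) :=
          funext hx₁'
        rw [h7]
        exact hc_evlR _ φ m
      rwa [h6] at h5
    obtain ⟨q, hq⟩ := h4
    obtain ⟨q', hq'⟩ := MvPolynomial.map_surjective _ hres q
    have h5 : MvPolynomial.map (IsLocalRing.residue R) (y i - evlR (A i) x₁ - linR (A i) * q') = 0 := by
      rw [map_sub, hq, map_mul, hq', map_linR]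
      exact sub_self _
    obtain ⟨y₁, hy₁⟩ := (dvd_iff hπ _).2 h5
    refine ⟨homogeneousComponent m y₁, homogeneousComponent_isHomogeneous m y₁, ?_⟩
    have h6 : (y i - evlR (A i) x₁).IsHomogeneous m := (hy i).sub (evlR_hom _ hx₁)
    have h7 := congrArg (homogeneousComponent m) hy₁
    rw [map_sub, homogeneousComponent_eq_self h6, homogeneousComponent_C_mul] at h7
    rw [← h7, sub_sub_cancel]
    exact dvd_hc (dvd_mul_right _ _) m
  choose y₁ hy₁ h4 using h3
  exact ⟨x₁, y₁, hx₁, hy₁, h4⟩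

/-- The tuples `y` such that `π ^ j y` is in the image. -/
def tors (A : ν → Fin 3 → R) (π : R) (m j : ℕ) : Submodule R (ν → MvPolynomial (Fin 3) R) where
  carrier := {y | (∀ i, (y i).IsHomogeneous m) ∧ ∃ x : Fin 3 → MvPolynomial (Fin 3) R,
    (∀ l, (x l).IsHomogeneous m) ∧ ∀ i, linR (A i) ∣ C (π ^ j) * y i - evlR (A i) x}
  zero_mem' := ⟨fun i => isHomogeneous_zero _ _ _, 0, fun l => isHomogeneous_zero _ _ _, fun i => by
    simp [evlR]⟩
  add_mem' := by
    rintro y y' ⟨hy, x, hx, h⟩ ⟨hy', x', hx', h'⟩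
    refine ⟨fun i => (hy i).add (hy' i), x + x', fun l => (hx l).add (hx' l), fun i => ?_⟩
    rw [evlR_add]
    have : C (π ^ j) * (y + y') i - (evlR (A i) x + evlR (A i) x') =
        (C (π ^ j) * y i - evlR (A i) x) + (C (π ^ j) * y' i - evlR (A i) x') := by
      rw [Pi.add_apply]; ring
    rw [this]
    exact dvd_add (h i) (h' i)
  smul_mem' := by
    rintro c y ⟨hy, x, hx, h⟩
    refine ⟨fun i => ?_, (C c : MvPolynomial (Fin 3) R) • x, fun l => ?_, fun i => ?_⟩
    · rw [Pi.smul_apply, smul_eq_C_mul]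
      simpa using (isHomogeneous_C (Fin 3) c).mul (hy i)
    · rw [Pi.smul_apply, smul_eq_mul]
      simpa using (isHomogeneous_C (Fin 3) c).mul (hx l)
    · rw [evlR_smul, Pi.smul_apply, smul_eq_C_mul]
      have : C (π ^ j) * (C c * y i) - C c * evlR (A i) x =
          C c * (C (π ^ j) * y i - evlR (A i) x) := by ring
      rw [this]
      exact dvd_mul_of_dvd_right (h i) _

theorem tors_succ (A : ν → Fin 3 → R) (π : R) (m j : ℕ) : tors A π m j ≤ tors A π m (j + 1) := by
  rintro y ⟨hy, x, hx, h⟩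
  refine ⟨hy, (C π : MvPolynomial (Fin 3) R) • x, fun l => ?_, fun i => ?_⟩
  · rw [Pi.smul_apply, smul_eq_mul]
    simpa using (isHomogeneous_C (Fin 3) π).mul (hx l)
  · rw [evlR_smul, pow_succ, C_mul]
    have : C (π ^ j) * C π * y i - C π * evlR (A i) x =
        C π * (C (π ^ j) * y i - evlR (A i) x) := by ring
    rw [this]
    exact dvd_mul_of_dvd_right (h i) _

theorem exists_stable [Fintype ν] (A : ν → Fin 3 → R) (π : R) (m : ℕ) :
    ∃ J, ∀ j, tors A π m j ≤ tors A π m J := by
  set H : Submodule R (ν → MvPolynomial (Fin 3) R) :=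
    Submodule.pi Set.univ fun _ => homogeneousSubmodule (Fin 3) R m with hH
  have hHfg : H.FG := Submodule.fg_pi fun _ => homogeneousSubmodule_fg (Fin 3) R m
  have hN : IsNoetherian R H := isNoetherian_of_fg_of_noetherian H hHfg
  have hle : ∀ j, tors A π m j ≤ H := by
    rintro j y ⟨hy, -⟩ i -
    exact hy i
  let f : ℕ →o Submodule R (ν → MvPolynomial (Fin 3) R) :=
    ⟨tors A π m, monotone_nat_of_le_succ (tors_succ A π m)⟩
  have hsup : iSup f ≤ H := iSup_le hle
  have hfg : (iSup f).FG := by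
    have h1 := (IsNoetherian.noetherian (Submodule.comap H.subtype (iSup f))).map H.subtype
    rwa [Submodule.map_comap_subtype, inf_eq_right.2 hsup] at h1
  obtain ⟨J, hJ⟩ := hfg.stabilizes_of_iSup_eq f rfl
  refine ⟨J, fun j => ?_⟩
  calc tors A π m j = f j := rfl
    _ ≤ iSup f := le_iSup f j
    _ = f J := hJ

/-- PST -/
theorem pst (hDEP : S_DEP) : S_PST := by
  intro R _ _ _ ν _ A e N hS he hL m
  obtain ⟨π, hπ⟩ := IsDiscreteValuationRing.exists_irreducible R
  have hA := hS.1
  have hres : Function.Surjective (IsLocalRing.residue R) := IsLocalRing.residue_surjective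
  obtain ⟨J, hJ⟩ := exists_stable A π m
  -- the iteration
  have hit : ∀ (s : ℕ) (y : ν → MvPolynomial (Fin 3) R), y ∈ tors A π m J →
      ∃ (x : Fin 3 → MvPolynomial (Fin 3) R) (y' : ν → MvPolynomial (Fin 3) R),
        (∀ l, (x l).IsHomogeneous m) ∧ y' ∈ tors A π m J ∧
        ∀ i, linR (A i) ∣ y i - evlR (A i) x - C (π ^ s) * y' i := by
    intro s y hy
    induction s with
    | zero => exact ⟨0, y, fun l => isHomogeneous_zero _ _ _, hy, fun i => by simp [evlR]⟩
    | succ s ih =>
      obtain ⟨x, y', hx, hy', h⟩ := ih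
      obtain ⟨hy'h, x', hx', h'⟩ := hy'
      obtain ⟨x₁, y₁, hx₁, hy₁, h₁⟩ := stepB hDEP hπ hS he hL hy'h hx' h'
      refine ⟨x + (C (π ^ s) : MvPolynomial (Fin 3) R) • x₁, y₁, fun l => ?_, hJ (J + 1) ⟨hy₁,
        x' - (C (π ^ J) : MvPolynomial (Fin 3) R) • x₁, fun l => ?_, fun i => ?_⟩, fun i => ?_⟩
      · refine (hx l).add ?_
        rw [Pi.smul_apply, smul_eq_mul]
        simpa using (isHomogeneous_C (Fin 3) (π ^ s)).mul (hx₁ l)
      · refine (hx' l).sub ?_
        rw [Pi.smul_apply, smul_eq_mul]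
        simpa using (isHomogeneous_C (Fin 3) (π ^ J)).mul (hx₁ l)
      · rw [evlR_sub, evlR_smul, pow_succ, C_mul]
        have h2 := dvd_sub (h' i) (dvd_mul_of_dvd_right (h₁ i) (C (π ^ J)))
        have h3 : C (π ^ J) * y' i - evlR (A i) x' -
            C (π ^ J) * (y' i - evlR (A i) x₁ - C π * y₁ i) =
            C (π ^ J) * C π * y₁ i - (evlR (A i) x' - C (π ^ J) * evlR (A i) x₁) := by ring
        rwa [h3] at h2
      · rw [evlR_add, evlR_smul, pow_succ, C_mul]
        have h2 := dvd_add (h i) (dvd_mul_of_dvd_right (h₁ i) (C (π ^ s)))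
        have h3 : y i - evlR (A i) x - C (π ^ s) * y' i +
            C (π ^ s) * (y' i - evlR (A i) x₁ - C π * y₁ i) =
            y i - (evlR (A i) x + C (π ^ s) * evlR (A i) x₁) - C (π ^ s) * C π * y₁ i := by ring
        rwa [h3] at h2
  -- there is no torsion
  have hno : ∀ y ∈ tors A π m J, ∃ x : Fin 3 → MvPolynomial (Fin 3) R,
      (∀ l, (x l).IsHomogeneous m) ∧ ∀ i, linR (A i) ∣ y i - evlR (A i) x := by
    intro y hy
    obtain ⟨x, y', hx, hy', h⟩ := hit J y hy
    obtain ⟨-, x', hx', h'⟩ := hy'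
    refine ⟨x + x', fun l => (hx l).add (hx' l), fun i => ?_⟩
    have h2 := dvd_add (h i) (h' i)
    rw [evlR_add]
    have h3 : y i - evlR (A i) x - C (π ^ J) * y' i + (C (π ^ J) * y' i - evlR (A i) x') =
        y i - (evlR (A i) x + evlR (A i) x') := by ring
    rwa [h3] at h2
  -- the lift
  intro v hv
  have h1 : ∀ l, ∃ P : MvPolynomial (Fin 3) R, P.IsHomogeneous m ∧
      MvPolynomial.map (IsLocalRing.residue R) P = v l := fun l => exists_lift _ hres (hv.2 l)
  choose x hx hxv using h1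
  have hxv' : mapV (IsLocalRing.residue R) x = v := funext hxv
  have h2 : ∀ i, ∃ y : MvPolynomial (Fin 3) R, y.IsHomogeneous m ∧
      linR (A i) ∣ C π * y - evlR (A i) x := by
    intro i
    obtain ⟨q, hq⟩ := hv.1 i
    obtain ⟨q', hq'⟩ := MvPolynomial.map_surjective _ hres q
    have h5 : MvPolynomial.map (IsLocalRing.residue R) (evlR (A i) x - linR (A i) * q') = 0 := by
      rw [map_sub, map_evlR, hxv', map_mul, hq', map_linR]
      exact sub_eq_zero.2 hq
    obtain ⟨y₁, hy₁⟩ := (dvd_iff hπ _).2 h5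
    refine ⟨homogeneousComponent m y₁, homogeneousComponent_isHomogeneous m y₁, ?_⟩
    have h7 := congrArg (homogeneousComponent m) hy₁
    rw [map_sub, homogeneousComponent_eq_self (evlR_hom _ hx), homogeneousComponent_C_mul] at h7
    rw [← h7, sub_sub_cancel_left, dvd_neg]
    exact dvd_hc (dvd_mul_right _ _) m
  choose y hy hyx using h2
  obtain ⟨x', hx', h'⟩ := hno y (hJ 1 ⟨hy, x, hx, fun i => by rw [pow_one]; exact hyx i⟩)
  refine ⟨x - (C π : MvPolynomial (Fin 3) R) • x', ⟨fun i => ?_, fun l => ?_⟩, ?_⟩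
  · rw [evlR_sub, evlR_smul]
    have h3 := dvd_sub (dvd_mul_of_dvd_right (h' i) (C π)) (hyx i)
    have h4 : C π * (y i - evlR (A i) x') - (C π * y i - evlR (A i) x) =
        evlR (A i) x - C π * evlR (A i) x' := by ring
    rwa [h4] at h3
  · refine (hx l).sub ?_
    rw [Pi.smul_apply, smul_eq_mul]
    simpa using (isHomogeneous_C (Fin 3) π).mul (hx' l)
  · funext l
    show MvPolynomial.map (IsLocalRing.residue R) (x l - C π * x' l) = v l
    rw [map_sub, hxv, map_mul, map_C, (IsLocalRing.residue_eq_zero_iff π).2 (by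
      rw [hπ.maximalIdeal_eq]; exact Ideal.mem_span_singleton_self π), map_zero, zero_mul, sub_zero]

end Pool.Agent.H18.GR
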